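import Mathlib

set_option autoImplicit false
set_option linter.all false

/-!
# Online metric assignment with two sites: the optimal randomized ratio is exactly 2
-/

namespace Pool.Agent.Results.MP_a4c1f4_lc.TwoSites

/-- Two sites `s₁ s₂` (capacity one each). A randomized online algorithm is the function `p`
giving, for the first request `r`, the probability `p r` of serving it from `s₁` (and `1 - p r`
from `s₂`); a second request is served from the other site. `CompetitiveWith c` says that the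
expected cost is at most `c` times the optimum on every instance with one or two requests. -/
def CompetitiveWith {N : Type} [MetricSpace N] (s₁ s₂ : N) (c : ℝ) (p : N → ℝ) : Prop :=
  (∀ r, 0 ≤ p r ∧ p r ≤ 1) ∧
  (∀ r, p r * dist s₁ r + (1 - p r) * dist s₂ r ≤ c * min (dist s₁ r) (dist s₂ r)) ∧
  (∀ r r', p r * (dist s₁ r + dist s₂ r') + (1 - p r) * (dist s₂ r + dist s₁ r') ≤
    c * min (dist s₁ r + dist s₂ r') (dist s₂ r + dist s₁ r'))

theorem key (a b D a' b' : ℝ) (ha : 0 ≤ a) (hb : 0 ≤ b) (hD : 0 ≤ D) (ha' : 0 ≤ a') (hb' : 0 ≤ b')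
    (h1 : a ≤ D + b) (h2 : b ≤ D + a) (h3 : D ≤ a + b) (h1' : a' ≤ D + b') (h2' : b' ≤ D + a') :
    ∃ Q : ℝ, Q = a * (D - b + a) + b * (D + b - a) ∧
    0 ≤ b * (D + b - a) / Q ∧ b * (D + b - a) / Q ≤ 1 ∧
    (b * (D + b - a) / Q * a + (1 - b * (D + b - a) / Q) * b ≤ 2 * min a b) ∧
    (b * (D + b - a) / Q * (a + b') + (1 - b * (D + b - a) / Q) * (b + a') ≤
      2 * min (a + b') (b + a')) := by
  refine ⟨_, rfl, ?_⟩
  obtain ⟨u, hu⟩ : ∃ u, u = D + b - a := ⟨_, rfl⟩
  obtain ⟨w, hw⟩ : ∃ w, w = D - b + a := ⟨_, rfl⟩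
  rw [← hu, ← hw]
  have hu0 : 0 ≤ u := by rw [hu]; linarith
  have hw0 : 0 ≤ w := by rw [hw]; linarith
  have haw : 0 ≤ a * w := mul_nonneg ha hw0
  have hbu : 0 ≤ b * u := mul_nonneg hb hu0
  obtain ⟨Q, hQ⟩ : ∃ Q, Q = a * w + b * u := ⟨_, rfl⟩
  rw [← hQ]
  have hQ0 : 0 ≤ Q := by rw [hQ]; linarith
  have hQuw : u * w ≤ Q := by
    rw [hQ, hu, hw]
    nlinarith [sq_nonneg (b - a), mul_nonneg hD (sub_nonneg.2 h3)]
  rcases hQ0.eq_or_lt with h0 | hpos
  · -- degenerate case
    have e1 : (a + b) * D + (b - a) ^ 2 = 0 := by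
      have : Q = (a + b) * D + (b - a) ^ 2 := by rw [hQ, hu, hw]; ring
      linarith
    have e2 : 0 ≤ (a + b) * D := mul_nonneg (by linarith) hD
    have e3 : (b - a) ^ 2 = 0 := by nlinarith [sq_nonneg (b - a)]
    have e4 : b = a := by
      have := pow_eq_zero_iff (two_ne_zero) |>.1 e3
      linarith
    have e5 : D * D ≤ 0 := by nlinarith
    have e6 : D = 0 := by nlinarith [mul_self_nonneg D, mul_self_eq_zero.1 (le_antisymm e5 (mul_self_nonneg D))]
    have e7 : a' = b' := by linarith
    rw [← h0, div_zero]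
    subst e4
    subst e7
    refine ⟨le_refl _, by norm_num, ?_, ?_⟩
    · rw [min_self]; linarith
    · rw [min_self]; linarith
  · obtain ⟨p, hp⟩ : ∃ p, p = b * u / Q := ⟨_, rfl⟩
    rw [← hp]
    have hpQ : p * Q = b * u := by rw [hp]; field_simp
    have hp0 : 0 ≤ p := by rw [hp]; positivity
    have hp1 : p ≤ 1 := by
      rw [hp, div_le_one hpos, hQ]; linarith
    have hqQ : (1 - p) * Q = a * w := by
      have : (1 - p) * Q = Q - p * Q := by ring
      rw [this, hpQ, hQ]; ring
    have hq0 : 0 ≤ 1 - p := by linarith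
    -- p * w ≤ b
    have k1 : p * w ≤ b := by
      by_contra hcon
      push Not at hcon
      have : b * Q < p * w * Q := mul_lt_mul_of_pos_right hcon hpos
      have h5 : p * w * Q = b * (u * w) := by
        have : p * w * Q = (p * Q) * w := by ring
        rw [this, hpQ]; ring
      rw [h5] at this
      nlinarith [mul_le_mul_of_nonneg_left hQuw hb]
    have k2 : (1 - p) * u ≤ a := by
      by_contra hcon
      push Not at hcon
      have : a * Q < (1 - p) * u * Q := mul_lt_mul_of_pos_right hcon hpos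
      have h5 : (1 - p) * u * Q = a * (u * w) := by
        have : (1 - p) * u * Q = ((1 - p) * Q) * u := by ring
        rw [this, hqQ]; ring
      rw [h5] at this
      nlinarith [mul_le_mul_of_nonneg_left hQuw ha]
    refine ⟨hp0, hp1, ?_, ?_⟩
    · rw [mul_min_of_nonneg _ _ (by norm_num : (0:ℝ) ≤ 2), le_min_iff]
      constructor
      · -- a + (1-p)(b-a) ≤ 2a
        have : (1 - p) * (b - a) ≤ (1 - p) * u :=
          mul_le_mul_of_nonneg_left (by rw [hu]; linarith) hq0
        nlinarith
      · have : p * (a - b) ≤ p * w :=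
          mul_le_mul_of_nonneg_left (by rw [hw]; linarith) hp0
        nlinarith
    · rw [mul_min_of_nonneg _ _ (by norm_num : (0:ℝ) ≤ 2), le_min_iff]
      constructor
      · have : (1 - p) * ((b + a') - (a + b')) ≤ (1 - p) * u :=
          mul_le_mul_of_nonneg_left (by rw [hu]; linarith) hq0
        nlinarith
      · have : p * ((a + b') - (b + a')) ≤ p * w :=
          mul_le_mul_of_nonneg_left (by rw [hw]; linarith) hp0
        nlinarith

/-- **Theorem.** `R(2) = 2`: the number 2 is the least `c` such that on every metric space with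
two sites some randomized online algorithm is `c`-competitive against an oblivious adversary. -/
theorem result : IsLeast {c : ℝ | ∀ (N : Type) [MetricSpace N] (s₁ s₂ : N),
    ∃ p : N → ℝ, CompetitiveWith s₁ s₂ c p} 2 := by
  constructor
  · intro N _ s₁ s₂
    refine ⟨fun r => dist s₂ r * (dist s₁ s₂ + dist s₂ r - dist s₁ r) /
      (dist s₁ r * (dist s₁ s₂ - dist s₂ r + dist s₁ r) +
        dist s₂ r * (dist s₁ s₂ + dist s₂ r - dist s₁ r)), ?_, ?_, ?_⟩
    · intro r
      obtain ⟨Q, rfl, h1, h2, -, -⟩ := key (dist s₁ r) (dist s₂ r) (dist s₁ s₂) (dist s₁ r)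
        (dist s₂ r) dist_nonneg dist_nonneg dist_nonneg dist_nonneg dist_nonneg
        (dist_triangle _ _ _) (by rw [dist_comm s₁ s₂]; exact dist_triangle _ _ _)
        (by rw [dist_comm s₂ r]; exact dist_triangle _ _ _)
        (dist_triangle _ _ _) (by rw [dist_comm s₁ s₂]; exact dist_triangle _ _ _)
      exact ⟨h1, h2⟩
    · intro r
      obtain ⟨Q, rfl, -, -, h3, -⟩ := key (dist s₁ r) (dist s₂ r) (dist s₁ s₂) (dist s₁ r)
        (dist s₂ r) dist_nonneg dist_nonneg dist_nonneg dist_nonneg dist_nonneg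
        (dist_triangle _ _ _) (by rw [dist_comm s₁ s₂]; exact dist_triangle _ _ _)
        (by rw [dist_comm s₂ r]; exact dist_triangle _ _ _)
        (dist_triangle _ _ _) (by rw [dist_comm s₁ s₂]; exact dist_triangle _ _ _)
      exact h3
    · intro r r'
      obtain ⟨Q, rfl, -, -, -, h4⟩ := key (dist s₁ r) (dist s₂ r) (dist s₁ s₂) (dist s₁ r')
        (dist s₂ r') dist_nonneg dist_nonneg dist_nonneg dist_nonneg dist_nonneg
        (dist_triangle _ _ _) (by rw [dist_comm s₁ s₂]; exact dist_triangle _ _ _)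
        (by rw [dist_comm s₂ r]; exact dist_triangle _ _ _)
        (dist_triangle _ _ _) (by rw [dist_comm s₁ s₂]; exact dist_triangle _ _ _)
      exact h4
  · intro c hc
    obtain ⟨p, -, -, h⟩ := hc ℝ (-1) 1
    have h1 := h 0 1
    have h2 := h 0 (-1)
    simp only [Real.dist_eq] at h1 h2
    norm_num at h1 h2
    nlinarith

end Pool.Agent.Results.MP_a4c1f4_lc.TwoSites
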